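import Pool.Agent.Run7.h925.LB.RGr

set_option autoImplicit false

/-!
# r-graphs without two pentagons joined by three disjoint edges are class 1

`MGraph r ends`: loopless `r`-regular multigraph on `Fin n` (edges `Fin m`) with at least `r` edges
leaving every odd vertex set.  `MCover 1 r ends`: `1 * r` perfect matchings covering every edge exactly
once.  `Brick H`: deleting any two vertices of `H` leaves a connected graph with a perfect matching.
`OddMinor H G`: `H` is a minor of `G`, with branch sets that have an odd number of vertices.
`PetMinor`: the Petersen graph is a minor.  `Sum5 H`: `H` has a tree decomposition with bags of at most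
five vertices, adjacent bags being equal or sharing at most three.
`LinkedMinor G`: some graph obtained from two disjoint pentagons by adding three disjoint edges between
them is a minor of `G`.

Proof.  A brick is 3-connected, so by Menger's theorem any two disjoint circuits are joined by three
disjoint paths.  If both circuits have at least five vertices, each of them is divided into five arcs
such that the ends of the three paths are in different arcs, and contracting the arcs and the paths
gives the minor.  Hence in a brick without `LinkedMinor` any two circuits of length at least five meet,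
and such bricks are settled by the starting file `MixedBricks`.
-/

namespace Pool.Agent.Results.MP_0c2bb8_co.LinkedPentagons

open H76FC H76TX H76TY H76TW Pool.Agent.W315.LB Pool.Agent.TH583.HB Pool.Agent.TH100.LV

/-- Some graph obtained from two disjoint pentagons by adding three disjoint edges between them is a
minor of `G`: the branch sets `A 0, ..., A 4` and `B 0, ..., B 4` are connected and pairwise disjoint,
cyclically consecutive ones are joined by an edge, and `A (i k)` is joined to `B (j k)` by an edge for
`k = 0, 1, 2`, where `i` and `j` are injective. -/
def LinkedMinor {V : Type} (G : SimpleGraph V) : Prop :=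
  ∃ (A B : Fin 5 → Set V) (i j : Fin 3 → Fin 5), Function.Injective i ∧ Function.Injective j ∧
    (∀ s, (G.induce (A s)).Connected) ∧ (∀ s, (G.induce (B s)).Connected) ∧
    (∀ s t, s ≠ t → Disjoint (A s) (A t)) ∧ (∀ s t, s ≠ t → Disjoint (B s) (B t)) ∧
    (∀ s t, Disjoint (A s) (B t)) ∧
    (∀ s, ∃ x ∈ A s, ∃ y ∈ A (s + 1), G.Adj x y) ∧
    (∀ s, ∃ x ∈ B s, ∃ y ∈ B (s + 1), G.Adj x y) ∧
    ∀ k, ∃ x ∈ A (i k), ∃ y ∈ B (j k), G.Adj x y

/-- Let `G` be an `r`-graph none of whose minors consists of two disjoint pentagons and three disjoint
edges between them; or an `r`-graph such that every brick `H` that is a minor of `G` with odd branch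
sets has no such minor, or has at most 13 vertices and no Petersen minor, or is in `Sum5`.  Then `G` has
`r` perfect matchings covering every edge exactly once. -/
theorem result {r n m : ℕ} (ends : Fin m → Sym2 (Fin n)) (hG : MGraph r ends)
    (hB : ¬ LinkedMinor (SimpleGraph.fromEdgeSet (Set.range ends)) ∨
      ∀ (W : Type) [Fintype W] (H : SimpleGraph W), Brick H →
        OddMinor H (SimpleGraph.fromEdgeSet (Set.range ends)) →
        ¬ LinkedMinor H ∨ (Fintype.card W ≤ 13 ∧ ¬ PetMinor H) ∨ Sum5 H) : MCover 1 r ends := by
  refine Run7.h925.LB.mcover_linked ends hG (fun W _ H hH ho => ?_)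
  rcases hB with hB | hB
  · refine Or.inl (fun hL => hB ?_)
    obtain ⟨f, f1, f2, f3, f4⟩ := ho
    exact Run7.h925.LB.linked_minor (f := f) ⟨f1, f3, f4⟩ hL
  · exact hB W H hH ho

end Pool.Agent.Results.MP_0c2bb8_co.LinkedPentagons
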