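import Pool.Agent.Run7.h818.HB.RG

/-!
# r-graphs without large linked pairs are class 1

`MGraph r ends`: loopless `r`-regular multigraph on `Fin n` (edges `Fin m`) with at least `r` edges
leaving every odd vertex set.  `MCover 1 r ends`: `1 * r` perfect matchings covering every edge exactly
once.  `PetMinor`: the Petersen graph is a minor.  `Brick H`: deleting any two vertices of `H` leaves a
connected graph with a perfect matching.  `OddMinor H G`: `H` is a minor of `G`, with branch sets that
have an odd number of vertices.  `PM H M`: the involution `M` is a perfect matching of `H`; `cross M A`:
the number of its edges leaving `A`; `OddCyc H A`: `H[A]` contains an odd cycle of length at least five.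

* `Linked ends S T`: `S`, `T` are disjoint sets of vertices of odd size, both induce connected subgraphs
  with circuits of length at least five, and five pairwise disjoint edges join `S` and `T`.
* `Bond H A`: `A` is an odd set of vertices of `H` with an odd complement, `A` and its complement are
  connected, and both contain an odd cycle of length at least five.
* `FewBonds W H`: there are natural numbers `k A` such that a perfect matching of `H` has at most
  `2 * k A + 3` edges leaving `A` for all `A` with `Bond H A`, and such that the sum of
  `k A / (k A + 1)` over these sets is less than six.  Each `A` is counted together with its
  complement, so that three such pairs are always allowed.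

Proof: `Pool/Agent/Run7/h818/HB`.  In a smallest counterexample on a brick every perfect matching `M`
leaves a set `Y` with fewer than `r - 1` edges of `G - M` leaving it; choose `Y` with the fewest edges
of `G` leaving it.  Then `Y` and its complement are connected, both contain odd cycles of length at
least five, and `M` has at least five edges leaving `Y`.
-/

set_option autoImplicit false

namespace Pool.Agent.Results.MP_0c2bb8_co.LongCircuitBonds

open H76FC H76TX H76TY H76TW Pool.Agent.W315.LB Pool.Agent.TH583.HB Pool.Agent.TH100.LV Run7.h818.HB

/-- Let `G` be an `r`-graph without Petersen minor in which any linked pair has at most 13 vertices; or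
an `r`-graph such that every brick `H` that is a minor of `G` with odd branch sets has at most 13
vertices and no Petersen minor, or satisfies `FewBonds`, or has more vertices than every linked pair of
`G`.  Then `G` has `r` perfect matchings covering every edge exactly once. -/
theorem result {r n m : ℕ} (ends : Fin m → Sym2 (Fin n)) (hG : MGraph r ends)
    (hB : (¬ PetMinor (SimpleGraph.fromEdgeSet (Set.range ends)) ∧
        ∀ S T, Linked ends S T → S.card + T.card ≤ 13) ∨
      ∀ (W : Type) [Fintype W] (H : SimpleGraph W), Brick H →
        OddMinor H (SimpleGraph.fromEdgeSet (Set.range ends)) →
        (Fintype.card W ≤ 13 ∧ ¬ PetMinor H) ∨ FewBonds W H ∨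
          ∀ S T, Linked ends S T → S.card + T.card < Fintype.card W) : MCover 1 r ends :=
  mcover ends hG hB

end Pool.Agent.Results.MP_0c2bb8_co.LongCircuitBonds
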